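import Mathlib

set_option autoImplicit false

/-!
MP_120218_co, squad ES, Lemma G: if the law of `ξ` is of small entropy, on a group without small
orders, and `ξ + ξ'` tells almost nothing about `ξ` and about `ξ'`, then `ξ'` is almost constant.
-/

open Finset

namespace Pool.Agent.Helper26.ES

variable {Q : Type*} [AddCommGroup Q] [Fintype Q]

/-- total variation distance -/
noncomputable def tv (F H : Q → ℝ) : ℝ := (∑ z, |F z - H z|) / 2

/-- the law of `ξ + t`, for `F` the law of `ξ` -/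
def sh (F : Q → ℝ) (t : Q) : Q → ℝ := fun z => F (z - t)

omit [AddCommGroup Q] in
theorem tv_nonneg (F H : Q → ℝ) : 0 ≤ tv F H := by
  unfold tv
  have : (0 : ℝ) ≤ ∑ z, |F z - H z| := sum_nonneg (fun z _ => abs_nonneg _)
  linarith

omit [AddCommGroup Q] in
theorem tv_symm (F H : Q → ℝ) : tv F H = tv H F := by
  unfold tv
  congr 1
  apply sum_congr rfl
  intro z _
  exact abs_sub_comm _ _

omit [AddCommGroup Q] in
theorem tv_tri (F H K : Q → ℝ) : tv F K ≤ tv F H + tv H K := by
  unfold tv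
  rw [← add_div, ← sum_add_distrib]
  apply div_le_div_of_nonneg_right _ (by norm_num)
  apply sum_le_sum
  intro z _
  exact abs_sub_le _ _ _

theorem sum_shift (f : Q → ℝ) (t : Q) : ∑ z, f (z - t) = ∑ z, f z :=
  Equiv.sum_comp (Equiv.subRight t) f

theorem tv_sh (F H : Q → ℝ) (t : Q) : tv (sh F t) (sh H t) = tv F H := by
  unfold tv sh
  congr 1
  exact sum_shift (fun z => |F z - H z|) t

omit [Fintype Q] in
theorem sh_sh (F : Q → ℝ) (s t : Q) : sh (sh F s) t = sh F (s + t) := by
  funext z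
  unfold sh
  congr 1
  abel

omit [Fintype Q] in
theorem sh_zero (F : Q → ℝ) : sh F 0 = F := by
  funext z
  unfold sh
  rw [sub_zero]

theorem sum_sh (F : Q → ℝ) (t : Q) : ∑ z, sh F t z = ∑ z, F z := sum_shift F t

omit [AddCommGroup Q] in
theorem tv_self (F : Q → ℝ) : tv F F = 0 := by
  unfold tv
  simp

omit [AddCommGroup Q] in
theorem tv_set [DecidableEq Q] {F H : Q → ℝ} (hF : ∑ z, F z = 1) (hH : ∑ z, H z = 1)
    (S : Finset Q) : ∑ z ∈ S, F z - ∑ z ∈ S, H z ≤ tv F H := by
  have e1 : ∑ z ∈ S, (F z - H z) + ∑ z ∈ Sᶜ, (F z - H z) = 0 := by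
    rw [sum_add_sum_compl, sum_sub_distrib, hF, hH, sub_self]
  have e2 : ∑ z ∈ S, |F z - H z| + ∑ z ∈ Sᶜ, |F z - H z| = 2 * tv F H := by
    rw [sum_add_sum_compl]
    unfold tv
    ring
  have e3 : ∑ z ∈ S, (F z - H z) ≤ ∑ z ∈ S, |F z - H z| :=
    sum_le_sum (fun z _ => le_abs_self _)
  have e4 : -∑ z ∈ Sᶜ, (F z - H z) ≤ ∑ z ∈ Sᶜ, |F z - H z| := by
    rw [← sum_neg_distrib]
    exact sum_le_sum (fun z _ => neg_le_abs _)
  rw [← sum_sub_distrib]
  linarith

open Classical in
/-- the good points -/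
noncomputable def gam (F' H : Q → ℝ) : Finset Q := univ.filter (fun x => tv (sh F' x) H ≤ 1 / 12)

theorem mem_gam {F' H : Q → ℝ} {x : Q} : x ∈ gam F' H ↔ tv (sh F' x) H ≤ 1 / 12 := by
  unfold gam
  simp

/-- Markov -/
theorem gam_mass {F F' H : Q → ℝ} (hF : ∀ x, 0 ≤ F x) (hF1 : ∑ x, F x = 1)
    (h : ∑ x, F x * tv (sh F' x) H ≤ 1 / 96) : 7 / 8 ≤ ∑ x ∈ gam F' H, F x := by
  classical
  have e1 : ∑ x ∈ gam F' H, F x + ∑ x ∈ (gam F' H)ᶜ, F x = 1 := by
    rw [sum_add_sum_compl, hF1]
  have e2 : ∑ x ∈ (gam F' H)ᶜ, F x * (1 / 12) ≤ ∑ x ∈ (gam F' H)ᶜ, F x * tv (sh F' x) H := by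
    apply sum_le_sum
    intro x hx
    apply mul_le_mul_of_nonneg_left _ (hF x)
    rw [mem_compl, mem_gam, not_le] at hx
    exact hx.le
  have e3 : ∑ x ∈ (gam F' H)ᶜ, F x * tv (sh F' x) H ≤ ∑ x, F x * tv (sh F' x) H :=
    sum_le_sum_of_subset_of_nonneg (subset_univ _)
      (fun x _ _ => mul_nonneg (hF x) (tv_nonneg _ _))
  rw [← sum_mul] at e2
  linarith

/-- one direction of the argument -/
theorem pass {F F' H : Q → ℝ} (hF : ∀ x, 0 ≤ F x) (hF1 : ∑ x, F x = 1)
    (h : ∑ x, F x * tv (sh F' x) H ≤ 1 / 96) {t : Q} (ht : tv F (sh F t) < 3 / 4) :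
    tv F' (sh F' t) ≤ 1 / 6 := by
  classical
  have hg := gam_mass hF hF1 h
  -- a point `x` with `x` and `x + t` good
  obtain ⟨x, hx1, hx2⟩ : ∃ x, x ∈ gam F' H ∧ x + t ∈ gam F' H := by
    by_contra hcon
    push Not at hcon
    have h1 := tv_set hF1 (by rw [sum_sh, hF1] : ∑ z, sh F t z = 1) (gam F' H)
    have h2 : ∑ z ∈ gam F' H, sh F t z = ∑ x ∈ (gam F' H).image (fun z => z - t), F x := by
      rw [sum_image (fun a _ b _ hab => sub_left_injective hab)]
      rfl
    have h3 : Disjoint (gam F' H) ((gam F' H).image (fun z => z - t)) := by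
      rw [disjoint_right]
      intro x hx hx'
      obtain ⟨z, hz, rfl⟩ := mem_image.1 hx
      apply hcon _ hx'
      rwa [sub_add_cancel]
    have h4 : ∑ x ∈ gam F' H, F x + ∑ x ∈ (gam F' H).image (fun z => z - t), F x ≤ 1 := by
      rw [← sum_union h3, ← hF1]
      exact sum_le_sum_of_subset_of_nonneg (subset_univ _) (fun x _ _ => hF x)
    linarith
  have h1 := mem_gam.1 hx1
  have h2 := mem_gam.1 hx2
  have h3 := tv_tri (sh F' x) H (sh F' (x + t))
  rw [tv_symm H] at h3
  have h4 : tv (sh F' x) (sh F' (x + t)) = tv F' (sh F' t) := by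
    rw [add_comm x t, ← sh_sh, tv_sh]
  rw [h4] at h3
  linarith

/-- the set of almost periods is closed under multiples -/
theorem periods {F F' H : Q → ℝ} (hF : ∀ x, 0 ≤ F x) (hF1 : ∑ x, F x = 1)
    (hF' : ∀ x, 0 ≤ F' x) (hF1' : ∑ x, F' x = 1)
    (h : ∑ x, F x * tv (sh F' x) H ≤ 1 / 96) (h' : ∑ x, F' x * tv (sh F x) H ≤ 1 / 96)
    {t : Q} (ht : tv F (sh F t) ≤ 1 / 6) (j : ℕ) : tv F (sh F (j • t)) ≤ 1 / 6 := by
  induction j with
  | zero => rw [zero_smul, sh_zero, tv_self]; norm_num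
  | succ j ih =>
    have h1 : tv F (sh F ((j + 1) • t)) < 3 / 4 := by
      have h2 := tv_tri F (sh F t) (sh F ((j + 1) • t))
      have h3 : tv (sh F t) (sh F ((j + 1) • t)) = tv F (sh F (j • t)) := by
        rw [succ_nsmul, ← sh_sh, tv_sh]
      rw [h3] at h2
      linarith
    have h4 := pass hF hF1 h h1
    exact pass hF' hF1' h' (by linarith)

/-- **Lemma G**, for a set `S` carrying half of the mass -/
theorem group_lemma_set {F F' H : Q → ℝ} (hF : ∀ x, 0 ≤ F x) (hF1 : ∑ x, F x = 1)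
    (hF' : ∀ x, 0 ≤ F' x) (hF1' : ∑ x, F' x = 1)
    (h : ∑ x, F x * tv (sh F' x) H ≤ 1 / 96) (h' : ∑ x, F' x * tv (sh F x) H ≤ 1 / 96)
    {q : ℕ} (hord : ∀ t : Q, t ≠ 0 → ∀ j : ℕ, 1 ≤ j → j < q → j • t ≠ 0) (S : Finset Q)
    (hSmass : 1 / 2 ≤ ∑ x ∈ S, F x) (hSq : 6 * S.card < q) : ∃ c, 7 / 8 ≤ F' c := by
  classical
  -- at most one good point
  have hone : ∀ x₁ ∈ gam F H, ∀ x₂ ∈ gam F H, x₁ = x₂ := by
    intro x₁ hx1 x₂ hx2
    by_contra hne
    set t := x₁ - x₂ with ht
    have ht0 : t ≠ 0 := sub_ne_zero.2 hne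
    have ht1 : tv F (sh F t) ≤ 1 / 6 := by
      have h1 := mem_gam.1 hx1
      have h2 := mem_gam.1 hx2
      have h3 := tv_tri (sh F x₂) H (sh F x₁)
      rw [tv_symm H] at h3
      have h4 : tv (sh F x₂) (sh F x₁) = tv F (sh F t) := by
        have h5 : x₁ = t + x₂ := by rw [ht]; abel
        rw [h5, ← sh_sh, tv_sh]
      rw [h4] at h3
      linarith
    have hper := periods hF hF1 hF' hF1' h h' ht1
    -- average over the multiples
    have hj : ∀ j : ℕ, 1 / 3 ≤ ∑ z ∈ S, sh F (j • t) z := by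
      intro j
      have h1 := tv_set hF1 (by rw [sum_sh, hF1] : ∑ z, sh F (j • t) z = 1) S
      have h2 := hper j
      linarith
    have h1 : ∑ j ∈ range q, ∑ z ∈ S, sh F (j • t) z ≤ S.card := by
      rw [sum_comm]
      calc ∑ z ∈ S, ∑ j ∈ range q, sh F (j • t) z ≤ ∑ z ∈ S, (1 : ℝ) := by
            apply sum_le_sum
            intro z _
            have hinj : Set.InjOn (fun j : ℕ => z - j • t) (range q : Finset ℕ) := by
              have key : ∀ i j : ℕ, i < j → j < q → z - i • t ≠ z - j • t := by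
                intro i j hij hjq hh
                have h2 : i • t = j • t := sub_right_injective hh
                have h3 : j • t = i • t + (j - i) • t := by
                  rw [← add_smul]; congr 1; omega
                rw [h3] at h2
                exact hord t ht0 (j - i) (by omega) (by omega) (left_eq_add.1 h2)
              intro i hi j hj hh
              rw [mem_coe, mem_range] at hi hj
              rcases lt_trichotomy i j with h2 | h2 | h2
              · exact absurd hh (key i j h2 hj)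
              · exact h2
              · exact absurd hh.symm (key j i h2 hi)
            have h2 : ∑ j ∈ range q, sh F (j • t) z =
                ∑ x ∈ (range q).image (fun j : ℕ => z - j • t), F x := by
              rw [sum_image hinj]
              rfl
            rw [h2, ← hF1]
            exact sum_le_sum_of_subset_of_nonneg (subset_univ _) (fun x _ _ => hF x)
        _ = S.card := by rw [sum_const, nsmul_eq_mul, mul_one]
    have h2 : (q : ℝ) * (1 / 3) ≤ ∑ j ∈ range q, ∑ z ∈ S, sh F (j • t) z := by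
      have h3 : ∑ _j ∈ range q, (1 / 3 : ℝ) ≤ ∑ j ∈ range q, ∑ z ∈ S, sh F (j • t) z :=
        sum_le_sum (fun j _ => hj j)
      rwa [sum_const, card_range, nsmul_eq_mul] at h3
    have h3 : (6 : ℝ) * S.card < q := by exact_mod_cast hSq
    linarith
  have hmass := gam_mass hF' hF1' h'
  obtain ⟨c, hc⟩ : (gam F H).Nonempty := by
    by_contra hcon
    rw [not_nonempty_iff_eq_empty] at hcon
    rw [hcon, sum_empty] at hmass
    linarith
  refine ⟨c, ?_⟩
  have h5 : gam F H = {c} := by
    apply eq_singleton_iff_unique_mem.2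
    exact ⟨hc, fun x hx => hone x hx c hc⟩
  rw [h5, sum_singleton] at hmass
  exact hmass

/-- **Lemma G** -/
theorem group_lemma {F F' H : Q → ℝ} (hF : ∀ x, 0 ≤ F x) (hF1 : ∑ x, F x = 1)
    (hF' : ∀ x, 0 ≤ F' x) (hF1' : ∑ x, F' x = 1)
    (h : ∑ x, F x * tv (sh F' x) H ≤ 1 / 96) (h' : ∑ x, F' x * tv (sh F x) H ≤ 1 / 96)
    {B : ℝ} (hB : ∑ x, F x * Real.log (1 / F x) ≤ B) {q : ℕ} (hq : 6 * Real.exp (2 * B) < q)
    (hord : ∀ t : Q, t ≠ 0 → ∀ j : ℕ, 1 ≤ j → j < q → j • t ≠ 0) : ∃ c, 7 / 8 ≤ F' c := by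
  classical
  have hFle : ∀ x, F x ≤ 1 := by
    intro x
    rw [← hF1]
    exact single_le_sum (fun x _ => hF x) (mem_univ x)
  have hlog : ∀ x, 0 ≤ F x * Real.log (1 / F x) := by
    intro x
    rcases (hF x).eq_or_lt with h0 | h0
    · rw [← h0, zero_mul]
    · apply mul_nonneg (hF x)
      apply Real.log_nonneg
      rw [le_div_iff₀ h0, one_mul]
      exact hFle x
  have hB0 : 0 ≤ B := le_trans (sum_nonneg (fun x _ => hlog x)) hB
  -- the heavy points of `F`
  set S : Finset Q := univ.filter (fun x => Real.exp (-(2 * B)) ≤ F x) with hS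
  have hScard : (S.card : ℝ) ≤ Real.exp (2 * B) := by
    have h1 : (S.card : ℝ) * Real.exp (-(2 * B)) ≤ 1 := by
      rw [← nsmul_eq_mul, ← sum_const, ← hF1]
      calc ∑ _x ∈ S, Real.exp (-(2 * B)) ≤ ∑ x ∈ S, F x := by
            apply sum_le_sum
            intro x hx
            exact (mem_filter.1 hx).2
        _ ≤ ∑ x, F x := sum_le_sum_of_subset_of_nonneg (subset_univ _) (fun x _ _ => hF x)
    rw [Real.exp_neg] at h1
    have h2 := Real.exp_pos (2 * B)
    rwa [← div_eq_mul_inv, div_le_one h2] at h1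
  have hSmass : 1 / 2 ≤ ∑ x ∈ S, F x := by
    have e1 : ∑ x ∈ S, F x + ∑ x ∈ Sᶜ, F x = 1 := by rw [sum_add_sum_compl, hF1]
    rcases hB0.eq_or_lt with hB1 | hB1
    · -- entropy zero: all mass at one point
      have h2 : ∀ x ∈ Sᶜ, F x = 0 := by
        intro x hx
        by_contra h0
        have h3 : 0 < F x := lt_of_le_of_ne (hF x) (Ne.symm h0)
        have h4 : F x * Real.log (1 / F x) ≤ 0 := by
          calc F x * Real.log (1 / F x) ≤ ∑ x, F x * Real.log (1 / F x) :=
                single_le_sum (fun x _ => hlog x) (mem_univ x)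
            _ ≤ 0 := by rw [hB1]; exact hB
        have h5 : Real.log (1 / F x) ≤ 0 := by
          by_contra h6
          push Not at h6
          have := mul_pos h3 h6
          linarith
        rw [one_div, Real.log_inv] at h5
        have h6 : 1 ≤ F x := by
          by_contra h7
          push Not at h7
          have := Real.log_neg h3 h7
          linarith
        apply (mem_compl.1 hx)
        rw [hS, mem_filter]
        refine ⟨mem_univ _, ?_⟩
        rw [← hB1]
        simpa using h6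
      rw [sum_eq_zero h2] at e1
      linarith
    · have h2 : ∑ x ∈ Sᶜ, F x * (2 * B) ≤ ∑ x ∈ Sᶜ, F x * Real.log (1 / F x) := by
        apply sum_le_sum
        intro x hx
        rcases (hF x).eq_or_lt with h0 | h0
        · rw [← h0, zero_mul, zero_mul]
        · apply mul_le_mul_of_nonneg_left _ (hF x)
          rw [one_div, Real.log_inv]
          have h3 : F x < Real.exp (-(2 * B)) := by
            by_contra h4
            push Not at h4
            exact (mem_compl.1 hx) (mem_filter.2 ⟨mem_univ _, h4⟩)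
          have h4 := Real.log_lt_log h0 h3
          rw [Real.log_exp] at h4
          linarith
      have h3 : ∑ x ∈ Sᶜ, F x * Real.log (1 / F x) ≤ ∑ x, F x * Real.log (1 / F x) :=
        sum_le_sum_of_subset_of_nonneg (subset_univ _) (fun x _ _ => hlog x)
      rw [← sum_mul] at h2
      have h4 : ∑ x ∈ Sᶜ, F x ≤ 1 / 2 := by
        by_contra h5
        push Not at h5
        have := mul_lt_mul_of_pos_right h5 (show 0 < 2 * B by linarith)
        linarith
      linarith
  refine group_lemma_set hF hF1 hF' hF1' h h' hord S hSmass ?_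
  have h3 : (6 : ℝ) * S.card < q := by linarith
  exact_mod_cast h3

end Pool.Agent.Helper26.ES
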