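import Pool.Agent.Helper84.SPSide
import Pool.Agent.Helper26.ES.GroupLemma

set_option autoImplicit false

/-!
MP_120218_co, squad ES: fibring of the mutual information over all pairs of classes, with the
mutual information of the classes bounded below by squares of total variation distances.
-/

open Finset
open Pool.Agent.Helper84.SP

namespace Pool.Agent.Helper26.ES

variable {ι G Q K : Type*} [AddCommGroup G] [DecidableEq G] [AddCommGroup Q] [DecidableEq Q]
  [DecidableEq K]

/-- Splitting `D` into many parts, with an arbitrary guess for the part of `y`. -/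
theorem J_split_many [DecidableEq ι] (κ : ι → K) {α : ι → G} {X : Finset G} {D : Finset ι}
    (Qf : K → G → ℝ) (hnn : ∀ c s, 0 ≤ Qf c s)
    (hpos : ∀ x ∈ X, ∀ y ∈ D, 0 < Qf (κ y) (x + α y))
    (hsum : ∀ s, ∑ c ∈ D.image κ, Qf c s ≤ 1) :
    ∑ c ∈ D.image κ, J α X (D.filter (fun y => κ y = c)) +
      ∑ x ∈ X, ∑ y ∈ D, Real.log
        (D.card / (D.filter (fun y' => κ y' = κ y)).card * Qf (κ y) (x + α y)) ≤ J α X D := by
  set S := sset α X D with hS
  have hSD : ∀ x ∈ X, ∀ y ∈ D, x + α y ∈ S := fun x hx y hy => mem_sset hx hy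
  set Dc : K → Finset ι := fun c => D.filter (fun y => κ y = c) with hDc
  have hDsub : ∀ c, Dc c ⊆ D := fun c => filter_subset _ _
  have hmem : ∀ y ∈ D, y ∈ Dc (κ y) := fun y hy => mem_filter.2 ⟨hy, rfl⟩
  -- splitting a double sum
  have hsplit : ∀ f : G → ι → ℝ, ∑ x ∈ X, ∑ y ∈ D, f x y =
      ∑ c ∈ D.image κ, ∑ x ∈ X, ∑ y ∈ Dc c, f x y := by
    intro f
    rw [sum_comm (s := D.image κ)]
    apply sum_congr rfl
    intro x _
    exact (sum_fiberwise_of_maps_to (s := D) (t := D.image κ) (g := κ)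
      (fun y hy => mem_image_of_mem _ hy) (fun y => f x y)).symm
  have hJsum : ∑ c ∈ D.image κ, J α X (Dc c) = ∑ x ∈ X, ∑ y ∈ D,
      Real.log (((Dc (κ y)).card : ℝ) / (rep α X (Dc (κ y)) (x + α y) : ℝ)) := by
    rw [hsplit]
    apply sum_congr rfl
    intro c _
    unfold J
    apply sum_congr rfl
    intro x _
    apply sum_congr rfl
    intro y hy
    rw [(mem_filter.1 hy).2]
  have hcorr : ∑ x ∈ X, ∑ y ∈ D, (Qf (κ y) (x + α y) * (rep α X D (x + α y) : ℝ) /
      (rep α X (Dc (κ y)) (x + α y) : ℝ) - 1) ≤ 0 := by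
    have e1 : ∑ x ∈ X, ∑ y ∈ D, (Qf (κ y) (x + α y) * (rep α X D (x + α y) : ℝ) /
        (rep α X (Dc (κ y)) (x + α y) : ℝ)) ≤ ∑ s ∈ S, (rep α X D s : ℝ) := by
      rw [hsplit]
      have e2 : ∀ c ∈ D.image κ, ∑ x ∈ X, ∑ y ∈ Dc c,
          (Qf (κ y) (x + α y) * (rep α X D (x + α y) : ℝ) /
            (rep α X (Dc (κ y)) (x + α y) : ℝ)) ≤ ∑ s ∈ S, Qf c s * (rep α X D s : ℝ) := by
        intro c _
        have e3 : ∑ x ∈ X, ∑ y ∈ Dc c, (Qf (κ y) (x + α y) * (rep α X D (x + α y) : ℝ) /
            (rep α X (Dc (κ y)) (x + α y) : ℝ)) = ∑ x ∈ X, ∑ y ∈ Dc c,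
            (fun s => Qf c s * (rep α X D s : ℝ) / (rep α X (Dc c) s : ℝ)) (x + α y) := by
          apply sum_congr rfl
          intro x _
          apply sum_congr rfl
          intro y hy
          rw [(mem_filter.1 hy).2]
        rw [e3, sum_pairs α X (Dc c)
          (fun s => Qf c s * (rep α X D s : ℝ) / (rep α X (Dc c) s : ℝ))
          (fun x hx y hy => hSD x hx y (hDsub c hy))]
        apply sum_le_sum
        intro s _
        rcases Nat.eq_zero_or_pos (rep α X (Dc c) s) with h | h
        · rw [h]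
          simp only [Nat.cast_zero, zero_mul]
          exact mul_nonneg (hnn c s) (by positivity)
        · have h' : (0 : ℝ) < rep α X (Dc c) s := by exact_mod_cast h
          rw [mul_div_cancel₀ _ h'.ne']
      refine (sum_le_sum e2).trans ?_
      rw [sum_comm]
      apply sum_le_sum
      intro s _
      rw [← sum_mul]
      exact mul_le_of_le_one_left (by positivity) (hsum s)
    rw [sum_rep α X D hSD] at e1
    simp_rw [sum_sub_distrib]
    have e4 : ∑ _x ∈ X, ∑ _y ∈ D, (1 : ℝ) = X.card * D.card := by simp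
    rw [e4]
    linarith
  have hterm : ∑ x ∈ X, ∑ y ∈ D,
      (Real.log (((Dc (κ y)).card : ℝ) / (rep α X (Dc (κ y)) (x + α y) : ℝ)) +
        Real.log (D.card / (Dc (κ y)).card * Qf (κ y) (x + α y)) -
        (Qf (κ y) (x + α y) * (rep α X D (x + α y) : ℝ) /
          (rep α X (Dc (κ y)) (x + α y) : ℝ) - 1)) ≤ J α X D := by
    unfold J
    apply sum_le_sum
    intro x hx
    apply sum_le_sum
    intro y hy
    have h1 : (0 : ℝ) < rep α X (Dc (κ y)) (x + α y) := by
      exact_mod_cast rep_pos hx (hmem y hy)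
    have h2 : (0 : ℝ) < rep α X D (x + α y) := by exact_mod_cast rep_pos hx hy
    have h3 : (0 : ℝ) < (Dc (κ y)).card := by exact_mod_cast card_pos.2 ⟨y, hmem y hy⟩
    have h4 : (0 : ℝ) < D.card := by exact_mod_cast card_pos.2 ⟨y, hy⟩
    have h5 := hpos x hx y hy
    have h6 := Real.log_le_sub_one_of_pos (show 0 <
      Qf (κ y) (x + α y) * (rep α X D (x + α y) : ℝ) /
        (rep α X (Dc (κ y)) (x + α y) : ℝ) by positivity)
    rw [Real.log_div (by positivity) h1.ne', Real.log_mul h5.ne' h2.ne'] at h6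
    rw [Real.log_div h3.ne' h1.ne', Real.log_div h4.ne' h2.ne',
      Real.log_mul (by positivity) h5.ne', Real.log_div h4.ne' h3.ne']
    linarith
  simp_rw [sum_sub_distrib, sum_add_distrib] at hterm hcorr
  rw [hJsum]
  linarith

/-- the law of `f y` for a random point `y` of `D` -/
noncomputable def law (f : ι → Q) (D : Finset ι) : Q → ℝ :=
  fun c => ((D.filter (fun y => f y = c)).card : ℝ) / D.card

omit [AddCommGroup Q] in
theorem law_nonneg (f : ι → Q) (D : Finset ι) (c : Q) : 0 ≤ law f D c := by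
  unfold law; positivity

omit [AddCommGroup Q] in
theorem law_pos (f : ι → Q) {D : Finset ι} {y : ι} (hy : y ∈ D) : 0 < law f D (f y) := by
  unfold law
  have h0 : 0 < (D.filter (fun y' => f y' = f y)).card :=
    card_pos.2 ⟨y, mem_filter.2 ⟨hy, rfl⟩⟩
  have h1 : (0 : ℝ) < (D.filter (fun y' => f y' = f y)).card := by exact_mod_cast h0
  have h2 : (0 : ℝ) < D.card := by exact_mod_cast card_pos.2 ⟨y, hy⟩
  positivity

omit [AddCommGroup Q] in
theorem sum_law_mul [Fintype Q] (f : ι → Q) {D : Finset ι} (g : Q → ℝ) :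
    ∑ y ∈ D, g (f y) = D.card * ∑ c, law f D c * g c := by
  rcases D.eq_empty_or_nonempty with h0 | h0
  · subst h0; simp
  have hp : (0 : ℝ) < D.card := by exact_mod_cast card_pos.2 h0
  rw [← sum_fiberwise_of_maps_to (s := D) (t := (univ : Finset Q)) (g := f)
    (fun y _ => mem_univ _), mul_sum]
  apply sum_congr rfl
  intro c _
  have h1 : ∑ y ∈ D.filter (fun y => f y = c), g (f y) =
      ∑ y ∈ D.filter (fun y => f y = c), g c := by
    apply sum_congr rfl
    intro y hy
    rw [(mem_filter.1 hy).2]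
  rw [h1, sum_const, nsmul_eq_mul]
  unfold law
  field_simp

omit [AddCommGroup Q] in
theorem sum_law [Fintype Q] (f : ι → Q) {D : Finset ι} (hD : D.Nonempty) :
    ∑ c, law f D c = 1 := by
  have hp : (0 : ℝ) < D.card := by exact_mod_cast card_pos.2 hD
  have h := sum_law_mul f (D := D) (fun _ => 1)
  simp only [sum_const, nsmul_eq_mul, mul_one] at h
  have h2 : (D.card : ℝ) * (∑ c, law f D c - 1) = 0 := by
    rw [mul_sub, ← h, mul_one, sub_self]
  rcases mul_eq_zero.1 h2 with h3 | h3
  · exact absurd h3 hp.ne'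
  · linarith

/-- convolution -/
noncomputable def conv [Fintype Q] (F F' : Q → ℝ) : Q → ℝ := fun z => ∑ c, F' c * F (z - c)

omit [DecidableEq Q] in
theorem conv_comm [Fintype Q] (F F' : Q → ℝ) : conv F F' = conv F' F := by
  funext z
  unfold conv
  rw [← Equiv.sum_comp (Equiv.subLeft z) (fun c => F' c * F (z - c))]
  apply sum_congr rfl
  intro c _
  simp only [Equiv.subLeft_apply, sub_sub_cancel]
  ring

omit [DecidableEq Q] in
theorem sum_conv [Fintype Q] {F F' : Q → ℝ} (hF : ∑ z, F z = 1) (hF' : ∑ z, F' z = 1) :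
    ∑ z, conv F F' z = 1 := by
  unfold conv
  rw [sum_comm]
  have h1 : ∀ c, ∑ z, F' c * F (z - c) = F' c := by
    intro c
    rw [← mul_sum, sum_shift, hF, mul_one]
  rw [sum_congr rfl (fun c _ => h1 c), hF']

omit [AddCommGroup Q] [DecidableEq Q] in
/-- a weak Pinsker inequality -/
theorem pinsker [Fintype Q] {P H : Q → ℝ} (hP : ∀ z, 0 ≤ P z) (hH : ∀ z, 0 ≤ H z)
    (hP1 : ∑ z, P z = 1) (hH1 : ∑ z, H z = 1) (habs : ∀ z, 0 < P z → 0 < H z) :
    tv P H ^ 2 ≤ ∑ z, P z * Real.log (P z / H z) := by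
  have hb : ∑ z, (√(P z) - √(H z)) ^ 2 ≤ ∑ z, P z * Real.log (P z / H z) := by
    have h1 : ∀ z, 2 * P z - 2 * (√(P z) * √(H z)) ≤ P z * Real.log (P z / H z) := by
      intro z
      rcases (hP z).eq_or_lt with h0 | h0
      · rw [← h0]; simp
      · have h2 := habs z h0
        have h3 : 0 < √(P z) := Real.sqrt_pos.2 h0
        have h4 : 0 < √(H z) := Real.sqrt_pos.2 h2
        have h5 := Real.log_le_sub_one_of_pos (show 0 < √(H z) / √(P z) by positivity)
        rw [Real.log_div h4.ne' h3.ne', Real.log_sqrt h2.le, Real.log_sqrt h0.le] at h5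
        rw [Real.log_div h0.ne' h2.ne']
        have h6 := mul_le_mul_of_nonneg_left h5 (show 0 ≤ 2 * P z by positivity)
        have h7 : P z * (√(H z) / √(P z)) = √(P z) * √(H z) := by
          have h8 : P z = √(P z) * √(P z) := (Real.mul_self_sqrt h0.le).symm
          field_simp
          nlinarith
        nlinarith
    have h2 : ∀ z, (√(P z) - √(H z)) ^ 2 = P z + H z - 2 * (√(P z) * √(H z)) := by
      intro z
      have h3 := Real.mul_self_sqrt (hP z)
      have h4 := Real.mul_self_sqrt (hH z)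
      nlinarith
    calc ∑ z, (√(P z) - √(H z)) ^ 2 = ∑ z, (2 * P z - 2 * (√(P z) * √(H z))) := by
          rw [sum_congr rfl (fun z _ => h2 z), sum_sub_distrib, sum_sub_distrib,
            sum_add_distrib, ← mul_sum, ← mul_sum, hP1, hH1]
          ring
      _ ≤ _ := sum_le_sum (fun z _ => h1 z)
  have hc : (∑ z, |P z - H z|) ^ 2 ≤ (∑ z, (√(P z) - √(H z)) ^ 2) *
      ∑ z, (√(P z) + √(H z)) ^ 2 := by
    have h1 : ∀ z, |P z - H z| = |√(P z) - √(H z)| * (√(P z) + √(H z)) := by
      intro z
      have h3 := Real.mul_self_sqrt (hP z)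
      have h4 := Real.mul_self_sqrt (hH z)
      have h5 : P z - H z = (√(P z) - √(H z)) * (√(P z) + √(H z)) := by nlinarith
      rw [h5, abs_mul, abs_of_nonneg (show 0 ≤ √(P z) + √(H z) by positivity)]
    rw [sum_congr rfl (fun z _ => h1 z)]
    refine (sum_mul_sq_le_sq_mul_sq _ _ _).trans (le_of_eq ?_)
    simp_rw [sq_abs]
  have hd : ∑ z, (√(P z) + √(H z)) ^ 2 ≤ 4 := by
    have h2 : ∀ z, (√(P z) + √(H z)) ^ 2 ≤ 2 * P z + 2 * H z := by
      intro z
      have h3 := Real.mul_self_sqrt (hP z)
      have h4 := Real.mul_self_sqrt (hH z)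
      nlinarith [sq_nonneg (√(P z) - √(H z))]
    refine (sum_le_sum (fun z _ => h2 z)).trans ?_
    rw [sum_add_distrib, ← mul_sum, ← mul_sum, hP1, hH1]
    norm_num
  have h0 : 0 ≤ ∑ z, (√(P z) - √(H z)) ^ 2 := sum_nonneg (fun z _ => sq_nonneg _)
  unfold tv
  nlinarith

/-- **Fibring**: the mutual information of `x + α y` and `y` is at least its average over the pairs
of classes plus a quantity measuring how much the class of `x + α y` tells about the class of
`y`. -/
theorem fibre [Fintype Q] [DecidableEq ι] (π : G →+ Q) {α : ι → G} {X : Finset G}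
    {D : Finset ι} (hX : X.Nonempty) (hD : D.Nonempty) :
    (∑ c, ∑ c', J α (cl π X c) (D.filter (fun y => π (α y) = c'))) / (X.card * D.card) +
      ∑ c', law (fun y => π (α y)) D c' *
        tv (sh (law π X) c') (conv (law π X) (law (fun y => π (α y)) D)) ^ 2 ≤ I α X D := by
  classical
  have hXp : (0 : ℝ) < X.card := by exact_mod_cast card_pos.2 hX
  have hDp : (0 : ℝ) < D.card := by exact_mod_cast card_pos.2 hD
  set F := law π X with hF
  set κ : ι → Q := fun y => π (α y) with hκ
  set F' := law κ D with hF'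
  set H := conv F F' with hH
  have hFn : ∀ c, 0 ≤ F c := law_nonneg π X
  have hFn' : ∀ c, 0 ≤ F' c := law_nonneg κ D
  have hF1 : ∑ c, F c = 1 := sum_law π hX
  have hF1' : ∑ c, F' c = 1 := sum_law κ hD
  have hHn : ∀ z, 0 ≤ H z := fun z => sum_nonneg (fun c _ => mul_nonneg (hFn' c) (hFn _))
  have hHge : ∀ c c', F' c' * F c ≤ H (c + c') := by
    intro c c'
    have h : F' c' * F (c + c' - c') ≤ ∑ d, F' d * F (c + c' - d) :=
      single_le_sum (f := fun d => F' d * F (c + c' - d))
        (fun d _ => mul_nonneg (hFn' d) (hFn _)) (mem_univ c')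
    rw [add_sub_cancel_right] at h
    exact h
  -- the guess
  have hsp := J_split_many κ (α := α) (X := X) (D := D)
    (fun c s => F' c * F (π s - c) / H (π s))
    (fun c s => div_nonneg (mul_nonneg (hFn' c) (hFn _)) (hHn _))
    (by
      intro x hx y hy
      have h1 : π (x + α y) - κ y = π x := by rw [map_add, hκ, add_sub_cancel_right]
      rw [h1]
      have h2 : 0 < F (π x) := law_pos π hx
      have h3 : 0 < F' (κ y) := law_pos κ hy
      have h4 := hHge (π x) (κ y)
      have h5 : 0 < H (π (x + α y)) := by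
        rw [map_add]
        exact lt_of_lt_of_le (mul_pos h3 h2) h4
      positivity)
    (by
      intro s
      rw [← sum_div]
      have h1 : ∑ c ∈ D.image κ, F' c * F (π s - c) ≤ H (π s) :=
        sum_le_sum_of_subset_of_nonneg (subset_univ _)
          (fun c _ _ => mul_nonneg (hFn' c) (hFn _))
      exact div_le_one_of_le₀ h1 (hHn _))
  -- the classes of `X`
  have hcl : ∑ c ∈ D.image κ, J α X (D.filter (fun y => κ y = c)) =
      ∑ c, ∑ c', J α (cl π X c) (D.filter (fun y => κ y = c')) := by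
    rw [sum_comm]
    have h1 : ∀ c' ∈ (univ : Finset Q), c' ∉ D.image κ →
        J α X (D.filter (fun y => κ y = c')) = 0 := by
      intro c' _ hc'
      have h2 : D.filter (fun y => κ y = c') = ∅ := by
        apply filter_eq_empty_iff.2
        intro y hy hyc
        exact hc' (mem_image.2 ⟨y, hy, hyc⟩)
      rw [h2]
      unfold J
      simp
    rw [sum_subset (subset_univ _) h1]
    apply sum_congr rfl
    intro c' _
    rw [J_classes π X (D := D.filter (fun y => κ y = c')) (a := c')
      (fun y hy => (mem_filter.1 hy).2)]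
    apply sum_subset (subset_univ _)
    intro c _ hc
    have h2 : cl π X c = ∅ := by
      apply filter_eq_empty_iff.2
      intro x hx hxc
      exact hc (mem_image.2 ⟨x, hx, hxc⟩)
    rw [h2]
    unfold J
    simp
  -- the gain
  have hgain : ∑ x ∈ X, ∑ y ∈ D, Real.log
        (D.card / (D.filter (fun y' => κ y' = κ y)).card *
          (F' (κ y) * F (π (x + α y) - κ y) / H (π (x + α y)))) =
      X.card * D.card * ∑ c', F' c' * ∑ z, sh F c' z * Real.log (sh F c' z / H z) := by
    have h1 : ∀ x ∈ X, ∀ y ∈ D, Real.log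
        (D.card / (D.filter (fun y' => κ y' = κ y)).card *
          (F' (κ y) * F (π (x + α y) - κ y) / H (π (x + α y)))) =
        Real.log (F (π x) / H (π x + κ y)) := by
      intro x hx y hy
      have e1 : π (x + α y) - κ y = π x := by rw [map_add, hκ, add_sub_cancel_right]
      rw [e1, map_add]
      congr 1
      have e0 : 0 < (D.filter (fun y' => κ y' = κ y)).card :=
        card_pos.2 ⟨y, mem_filter.2 ⟨hy, rfl⟩⟩
      have e2 : (0 : ℝ) < (D.filter (fun y' => κ y' = κ y)).card := by exact_mod_cast e0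
      rw [hF']
      unfold law
      rw [mul_div_assoc, ← mul_assoc]
      have e3 : (D.card : ℝ) / (D.filter (fun y' => κ y' = κ y)).card *
          (((D.filter (fun y' => κ y' = κ y)).card : ℝ) / D.card) = 1 := by
        field_simp
      rw [e3, one_mul]
    rw [sum_congr rfl (fun x hx => sum_congr rfl (fun y hy => h1 x hx y hy))]
    rw [sum_comm]
    have h2 : ∀ y ∈ D, ∑ x ∈ X, Real.log (F (π x) / H (π x + κ y)) =
        (fun c' => (X.card : ℝ) * ∑ z, sh F c' z * Real.log (sh F c' z / H z)) (κ y) := by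
      intro y _
      rw [sum_law_mul π (fun c => Real.log (F c / H (c + κ y)))]
      simp only
      congr 1
      rw [← sum_shift (fun c => F c * Real.log (F c / H (c + κ y))) (κ y)]
      apply sum_congr rfl
      intro z _
      unfold sh
      rw [sub_add_cancel]
    rw [sum_congr rfl h2,
      sum_law_mul κ (fun c' => (X.card : ℝ) * ∑ z, sh F c' z * Real.log (sh F c' z / H z))]
    simp only [mul_sum]
    apply sum_congr rfl
    intro c' _
    apply sum_congr rfl
    intro z _
    ring
  have hpin : ∑ c', F' c' * tv (sh F c') H ^ 2 ≤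
      ∑ c', F' c' * ∑ z, sh F c' z * Real.log (sh F c' z / H z) := by
    apply sum_le_sum
    intro c' _
    rcases (hFn' c').eq_or_lt with h0 | h0
    · rw [← h0, zero_mul, zero_mul]
    · apply mul_le_mul_of_nonneg_left _ h0.le
      apply pinsker (P := sh F c') (fun z => hFn _) hHn (by rw [sum_sh, hF1])
        (sum_conv hF1 hF1')
      intro z hz
      have h4 := hHge (z - c') c'
      rw [sub_add_cancel] at h4
      exact lt_of_lt_of_le (mul_pos h0 hz) h4
  rw [hgain, hcl] at hsp
  unfold I
  rw [le_div_iff₀ (by positivity), add_mul, div_mul_cancel₀ _ (by positivity)]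
  have h5 := mul_le_mul_of_nonneg_left hpin (show (0 : ℝ) ≤ X.card * D.card by positivity)
  linarith

end Pool.Agent.Helper26.ES
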